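import Pool.Agent.MP_b04567_ag.Defs

-- part MP_b04567_ag.Forms
section

/-! Homogeneous and bihomogeneous polynomial functions. -/

namespace Pool.Agent.MP_b04567_ag

open MvPolynomial

/-- Homogeneous polynomial functions of degree d in four variables. -/
def HF (d : ℕ) (f : (Fin 4 → ℂ) → ℂ) : Prop :=
  ∃ L : MvPolynomial (Fin 4) ℂ, L.IsHomogeneous d ∧ ∀ p, eval p L = f p

namespace HF

variable {d e : ℕ} {f g : (Fin 4 → ℂ) → ℂ}

theorem congr (h : HF d f) (hd : d = e) (hf : ∀ p, f p = g p) : HF e g := by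
  obtain ⟨L, h1, h2⟩ := h
  exact ⟨L, hd ▸ h1, fun p => (h2 p).trans (hf p)⟩

theorem const (c : ℂ) : HF 0 fun _ => c := ⟨C c, isHomogeneous_C _ _, fun _ => eval_C _⟩

theorem zero (d : ℕ) : HF d fun _ => 0 := ⟨0, isHomogeneous_zero _ _ _, fun _ => map_zero _⟩

theorem coord (i : Fin 4) : HF 1 fun p => p i := ⟨X i, isHomogeneous_X _ _, fun _ => eval_X _⟩

theorem add (h : HF d f) (h' : HF d g) : HF d fun p => f p + g p := by
  obtain ⟨L, h1, h2⟩ := h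
  obtain ⟨L', h1', h2'⟩ := h'
  exact ⟨L + L', h1.add h1', fun p => by rw [map_add, h2, h2']⟩

theorem mul (h : HF d f) (h' : HF e g) : HF (d + e) fun p => f p * g p := by
  obtain ⟨L, h1, h2⟩ := h
  obtain ⟨L', h1', h2'⟩ := h'
  exact ⟨L * L', h1.mul h1', fun p => by rw [map_mul, h2, h2']⟩

theorem smul (c : ℂ) (h : HF d f) : HF d fun p => c * f p :=
  ((const c).mul h).congr (zero_add d) fun _ => rfl

theorem neg (h : HF d f) : HF d fun p => -f p := (h.smul (-1)).congr rfl fun _ => by ring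

theorem sub (h : HF d f) (h' : HF d g) : HF d fun p => f p - g p :=
  (h.add h'.neg).congr rfl fun _ => by ring

theorem pow (h : HF d f) (n : ℕ) : HF (d * n) fun p => f p ^ n := by
  obtain ⟨L, h1, h2⟩ := h
  exact ⟨L ^ n, h1.pow n, fun p => by rw [map_pow, h2]⟩

theorem sum {ι : Type} (s : Finset ι) {F : ι → (Fin 4 → ℂ) → ℂ} (h : ∀ i ∈ s, HF d (F i)) :
    HF d fun p => ∑ i ∈ s, F i p := by
  classical
  induction s using Finset.induction_on with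
  | empty => exact (zero d).congr rfl fun _ => by simp
  | insert a s ha ih =>
    exact ((h a (Finset.mem_insert_self a s)).add
      (ih fun i hi => h i (Finset.mem_insert_of_mem hi))).congr rfl
      fun p => by rw [Finset.sum_insert ha]

theorem comp (h : HF d f) {T : Fin 4 → (Fin 4 → ℂ) → ℂ} (hT : ∀ i, HF 1 (T i)) :
    HF d fun p => f fun i => T i p := by
  obtain ⟨L, h1, h2⟩ := h
  choose M hM hM' using hT
  refine ⟨aeval M L, by simpa using h1.aeval M hM, fun p => ?_⟩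
  have h3 : (fun i => T i p) = fun i => eval p (M i) := funext fun i => (hM' i p).symm
  beta_reduce
  rw [← h2, h3]
  clear h1 h2
  induction L using MvPolynomial.induction_on with
  | C a => simp
  | add L L' ih ih' => rw [map_add, map_add, map_add, ih, ih']
  | mul_X L i ih => rw [map_mul, map_mul, map_mul, ih, aeval_X, eval_X]

end HF

/-- Bihomogeneous polynomial functions. -/
inductive BH : ℕ → ℕ → (ℂ → ℂ → ℂ → ℂ → ℂ) → Prop
  | const (c : ℂ) : BH 0 0 fun _ _ _ _ => c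
  | zero (a b : ℕ) : BH a b fun _ _ _ _ => 0
  | add {a b : ℕ} {f g : ℂ → ℂ → ℂ → ℂ → ℂ} :
      BH a b f → BH a b g → BH a b fun s t u v => f s t u v + g s t u v
  | ms {a b : ℕ} {f : ℂ → ℂ → ℂ → ℂ → ℂ} : BH a b f → BH (a + 1) b fun s t u v => s * f s t u v
  | mt {a b : ℕ} {f : ℂ → ℂ → ℂ → ℂ → ℂ} : BH a b f → BH (a + 1) b fun s t u v => t * f s t u v
  | mu {a b : ℕ} {f : ℂ → ℂ → ℂ → ℂ → ℂ} : BH a b f → BH a (b + 1) fun s t u v => u * f s t u v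
  | mv {a b : ℕ} {f : ℂ → ℂ → ℂ → ℂ → ℂ} : BH a b f → BH a (b + 1) fun s t u v => v * f s t u v

namespace BH

variable {a b a' b' : ℕ} {f g : ℂ → ℂ → ℂ → ℂ → ℂ}

theorem congr (h : BH a b f) (ha : a = a') (hb : b = b') (hf : ∀ s t u v, f s t u v = g s t u v) :
    BH a' b' g := by
  have : f = g := by
    funext s t u v
    exact hf s t u v
  subst ha hb this
  exact h

theorem smul (c : ℂ) (h : BH a b f) : BH a b fun s t u v => c * f s t u v := by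
  induction h with
  | const c' => exact const _
  | zero a b => exact (zero a b).congr rfl rfl fun _ _ _ _ => by ring
  | add _ _ ih ih' => exact (ih.add ih').congr rfl rfl fun _ _ _ _ => by ring
  | ms _ ih => exact ih.ms.congr rfl rfl fun _ _ _ _ => by ring
  | mt _ ih => exact ih.mt.congr rfl rfl fun _ _ _ _ => by ring
  | mu _ ih => exact ih.mu.congr rfl rfl fun _ _ _ _ => by ring
  | mv _ ih => exact ih.mv.congr rfl rfl fun _ _ _ _ => by ring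

theorem sub (h : BH a b f) (h' : BH a b g) : BH a b fun s t u v => f s t u v - g s t u v :=
  (h.add (h'.smul (-1))).congr rfl rfl fun _ _ _ _ => by ring

theorem mul (h : BH a b f) (h' : BH a' b' g) :
    BH (a + a') (b + b') fun s t u v => f s t u v * g s t u v := by
  induction h with
  | const c => exact (h'.smul c).congr (by ring) (by ring) fun _ _ _ _ => rfl
  | zero a b => exact (zero _ _).congr rfl rfl fun _ _ _ _ => by ring
  | add _ _ ih ih' => exact (ih.add ih').congr rfl rfl fun _ _ _ _ => by ring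
  | ms _ ih => exact ih.ms.congr (by ring) rfl fun _ _ _ _ => by ring
  | mt _ ih => exact ih.mt.congr (by ring) rfl fun _ _ _ _ => by ring
  | mu _ ih => exact ih.mu.congr rfl (by ring) fun _ _ _ _ => by ring
  | mv _ ih => exact ih.mv.congr rfl (by ring) fun _ _ _ _ => by ring

theorem pow (h : BH a b f) (n : ℕ) : BH (a * n) (b * n) fun s t u v => f s t u v ^ n := by
  induction n with
  | zero => exact (const 1).congr (by ring) (by ring) fun _ _ _ _ => by ring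
  | succ n ih => exact (ih.mul h).congr (by ring) (by ring) fun _ _ _ _ => by ring

theorem lin1 (x y : ℂ) : BH 1 0 fun s t _ _ => x * s + y * t :=
  ((const x).ms.add (const y).mt).congr rfl rfl fun _ _ _ _ => by ring

theorem lin2 (x y : ℂ) : BH 0 1 fun _ _ u v => x * u + y * v :=
  ((const x).mu.add (const y).mv).congr rfl rfl fun _ _ _ _ => by ring

theorem ps (n : ℕ) : BH n 0 fun s _ _ _ => s ^ n :=
  ((lin1 1 0).pow n).congr (by ring) (by ring) fun _ _ _ _ => by ring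

theorem pt (n : ℕ) : BH n 0 fun _ t _ _ => t ^ n :=
  ((lin1 0 1).pow n).congr (by ring) (by ring) fun _ _ _ _ => by ring

theorem pu (n : ℕ) : BH 0 n fun _ _ u _ => u ^ n :=
  ((lin2 1 0).pow n).congr (by ring) (by ring) fun _ _ _ _ => by ring

theorem pv (n : ℕ) : BH 0 n fun _ _ _ v => v ^ n :=
  ((lin2 0 1).pow n).congr (by ring) (by ring) fun _ _ _ _ => by ring

theorem sum {ι : Type} (S : Finset ι) {F : ι → ℂ → ℂ → ℂ → ℂ → ℂ} (h : ∀ i ∈ S, BH a b (F i)) :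
    BH a b fun s t u v => ∑ i ∈ S, F i s t u v := by
  classical
  induction S using Finset.induction_on with
  | empty => exact (zero a b).congr rfl rfl fun _ _ _ _ => by simp
  | insert x S hx ih =>
    exact ((h x (Finset.mem_insert_self x S)).add
      (ih fun i hi => h i (Finset.mem_insert_of_mem hi))).congr rfl rfl
      fun _ _ _ _ => by rw [Finset.sum_insert hx]

theorem biform (a b : ℕ) (c : ℕ → ℕ → ℂ) : BH a b (biform a b c) := by
  refine sum _ fun i hi => sum _ fun j hj => ?_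
  have hi' := Finset.mem_range.1 hi
  have hj' := Finset.mem_range.1 hj
  exact (((((ps i).mul (pt (a - i))).mul (pu j)).mul (pv (b - j))).smul (c i j)).congr
    (by omega) (by omega) fun _ _ _ _ => by ring

theorem swap (h : BH a b f) : BH b a fun s t u v => f u v s t := by
  induction h with
  | const c => exact const c
  | zero a b => exact zero _ _
  | add _ _ ih ih' => exact ih.add ih'
  | ms _ ih => exact ih.mu
  | mt _ ih => exact ih.mv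
  | mu _ ih => exact ih.ms
  | mv _ ih => exact ih.mt

theorem subst (h : BH a b f) (x₁ x₂ x₃ x₄ y₁ y₂ y₃ y₄ : ℂ) :
    BH a b fun s t u v =>
      f (x₁ * s + x₂ * t) (x₃ * s + x₄ * t) (y₁ * u + y₂ * v) (y₃ * u + y₄ * v) := by
  induction h with
  | const c => exact const c
  | zero a b => exact zero _ _
  | add _ _ ih ih' => exact ih.add ih'
  | ms _ ih => exact ((lin1 x₁ x₂).mul ih).congr (by ring) (by ring) fun _ _ _ _ => rfl
  | mt _ ih => exact ((lin1 x₃ x₄).mul ih).congr (by ring) (by ring) fun _ _ _ _ => rfl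
  | mu _ ih => exact ((lin2 y₁ y₂).mul ih).congr (by ring) (by ring) fun _ _ _ _ => rfl
  | mv _ ih => exact ((lin2 y₃ y₄).mul ih).congr (by ring) (by ring) fun _ _ _ _ => rfl

theorem hom2 (h : BH a b f) (r s t u v : ℂ) : f s t (r * u) (r * v) = r ^ b * f s t u v := by
  induction h with
  | const c => ring
  | zero a b => ring
  | add _ _ ih ih' => simp only [ih, ih']; ring
  | ms _ ih => simp only [ih]; ring
  | mt _ ih => simp only [ih]; ring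
  | mu _ ih => simp only [ih]; ring
  | mv _ ih => simp only [ih]; ring

theorem hom1 (h : BH a b f) (r s t u v : ℂ) : f (r * s) (r * t) u v = r ^ a * f s t u v :=
  h.swap.hom2 r u v s t

theorem indep2 (h : BH a 0 f) (s t u v u' v' : ℂ) : f s t u v = f s t u' v' := by
  have h1 := h.hom2 0 s t u v
  have h2 := h.hom2 0 s t u' v'
  simp only [zero_mul, pow_zero, one_mul] at h1 h2
  rw [← h1, h2]

theorem indep1 (h : BH 0 b f) (s t s' t' u v : ℂ) : f s t u v = f s' t' u v :=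
  h.swap.indep2 u v s t s' t'

/-- Division with remainder by a linear form in (u, v). -/
theorem div2' (h : BH a b f) {l₁ l₂ m₁ m₂ x₁ x₂ y₁ y₂ : ℂ}
    (hu : ∀ u v : ℂ, u = x₁ * (l₁ * u + l₂ * v) + x₂ * (m₁ * u + m₂ * v))
    (hv : ∀ u v : ℂ, v = y₁ * (l₁ * u + l₂ * v) + y₂ * (m₁ * u + m₂ * v)) :
    ∃ f₀ f₁, BH a 0 f₀ ∧ BH a b (fun s t u v => (m₁ * u + m₂ * v) * f₁ s t u v) ∧
      (∀ b', b = b' + 1 → BH a b' f₁) ∧
      ∀ s t u v, f s t u v = (l₁ * u + l₂ * v) * f₁ s t u v + (m₁ * u + m₂ * v) ^ b * f₀ s t u v := by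
  have key : ∀ {a b : ℕ} {f : ℂ → ℂ → ℂ → ℂ → ℂ} (x y : ℂ), BH a b f →
      (∃ f₀ f₁, BH a 0 f₀ ∧ BH a b (fun s t u v => (m₁ * u + m₂ * v) * f₁ s t u v) ∧
      (∀ b', b = b' + 1 → BH a b' f₁) ∧ ∀ s t u v, f s t u v =
        (l₁ * u + l₂ * v) * f₁ s t u v + (m₁ * u + m₂ * v) ^ b * f₀ s t u v) →
      ∃ f₀ f₁, BH a 0 f₀ ∧ BH a (b + 1) (fun s t u v => (m₁ * u + m₂ * v) * f₁ s t u v) ∧
      (∀ b', b + 1 = b' + 1 → BH a b' f₁) ∧ ∀ s t u v,
        (x * (l₁ * u + l₂ * v) + y * (m₁ * u + m₂ * v)) * f s t u v =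
        (l₁ * u + l₂ * v) * f₁ s t u v + (m₁ * u + m₂ * v) ^ (b + 1) * f₀ s t u v := by
    rintro a b f x y hf ⟨f₀, f₁, h0, h1, -, h3⟩
    have h4 := (hf.smul x).add (h1.smul y)
    refine ⟨_, _, h0.smul y, ((lin2 m₁ m₂).mul h4).congr (by ring) (by ring) fun _ _ _ _ => rfl,
      fun b' hb => h4.congr rfl (by omega) fun _ _ _ _ => rfl, fun s t u v => ?_⟩
    linear_combination (y * (m₁ * u + m₂ * v)) * h3 s t u v
  induction h with
  | const c => exact ⟨_, fun _ _ _ _ => 0, const c, (zero _ _).congr rfl rfl fun _ _ _ _ => by ring,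
      fun b' hb => absurd hb (by omega), fun _ _ _ _ => by ring⟩
  | zero a b => exact ⟨_, fun _ _ _ _ => 0, zero _ _,
      (zero _ _).congr rfl rfl fun _ _ _ _ => by ring, fun b' _ => zero _ _,
      fun _ _ _ _ => by ring⟩
  | add _ _ ih ih' =>
    obtain ⟨f₀, f₁, h0, h1, h2, h3⟩ := ih
    obtain ⟨g₀, g₁, k0, k1, k2, k3⟩ := ih'
    exact ⟨_, fun s t u v => f₁ s t u v + g₁ s t u v, h0.add k0,
      (h1.add k1).congr rfl rfl fun _ _ _ _ => by ring,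
      fun b' hb => (h2 b' hb).add (k2 b' hb),
      fun s t u v => by linear_combination h3 s t u v + k3 s t u v⟩
  | ms _ ih =>
    obtain ⟨f₀, f₁, h0, h1, h2, h3⟩ := ih
    exact ⟨_, fun s t u v => s * f₁ s t u v, h0.ms,
      h1.ms.congr rfl rfl fun _ _ _ _ => by ring,
      fun b' hb => (h2 b' hb).ms, fun s t u v => by linear_combination s * h3 s t u v⟩
  | mt _ ih =>
    obtain ⟨f₀, f₁, h0, h1, h2, h3⟩ := ih
    exact ⟨_, fun s t u v => t * f₁ s t u v, h0.mt,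
      h1.mt.congr rfl rfl fun _ _ _ _ => by ring,
      fun b' hb => (h2 b' hb).mt, fun s t u v => by linear_combination t * h3 s t u v⟩
  | mu hf ih =>
    obtain ⟨f₀, f₁, h0, h1, h2, h3⟩ := key x₁ x₂ hf ih
    exact ⟨f₀, f₁, h0, h1, h2, fun s t u v => by rw [← h3, ← hu]⟩
  | mv hf ih =>
    obtain ⟨f₀, f₁, h0, h1, h2, h3⟩ := key y₁ y₂ hf ih
    exact ⟨f₀, f₁, h0, h1, h2, fun s t u v => by rw [← h3, ← hv]⟩

theorem div2 (h : BH a (b + 1) f) {l₁ l₂ m₁ m₂ : ℂ} (hd : l₁ * m₂ - l₂ * m₁ ≠ 0) :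
    ∃ f₀ f₁, BH a 0 f₀ ∧ BH a b f₁ ∧ ∀ s t u v,
      f s t u v = (l₁ * u + l₂ * v) * f₁ s t u v + (m₁ * u + m₂ * v) ^ (b + 1) * f₀ s t u v := by
  obtain ⟨r, hr⟩ : ∃ r, r * (l₁ * m₂ - l₂ * m₁) = 1 := ⟨_, inv_mul_cancel₀ hd⟩
  obtain ⟨f₀, f₁, h0, -, h2, h3⟩ := h.div2' (l₁ := l₁) (l₂ := l₂) (m₁ := m₁) (m₂ := m₂)
    (x₁ := r * m₂) (x₂ := -r * l₂) (y₁ := -r * m₁) (y₂ := r * l₁)
    (fun u v => by linear_combination (-u) * hr) (fun u v => by linear_combination (-v) * hr)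
  exact ⟨f₀, f₁, h0, h2 b rfl, h3⟩

theorem div1 (h : BH (a + 1) b f) {l₁ l₂ m₁ m₂ : ℂ} (hd : l₁ * m₂ - l₂ * m₁ ≠ 0) :
    ∃ f₀ f₁, BH 0 b f₀ ∧ BH a b f₁ ∧ ∀ s t u v,
      f s t u v = (l₁ * s + l₂ * t) * f₁ s t u v + (m₁ * s + m₂ * t) ^ (a + 1) * f₀ s t u v := by
  obtain ⟨f₀, f₁, h0, h1, h2⟩ := h.swap.div2 hd
  exact ⟨_, _, h0.swap, h1.swap, fun s t u v => h2 u v s t⟩

theorem lift' (h : BH a b f) : ∀ i j k l : ℕ, a + i + j = b + k + l →
    ∃ K, HF (a + i + j) K ∧ ∀ s t u v, K ![s * u, t * u, s * v, t * v] =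
      s ^ i * t ^ j * u ^ k * v ^ l * f s t u v := by
  induction h with
  | const c =>
    intro i j k l h
    rcases le_total i k with hik | hik
    · obtain ⟨m, rfl⟩ := Nat.exists_eq_add_of_le hik
      obtain rfl : j = m + l := by omega
      exact ⟨_, (((((HF.coord 0).pow i).mul ((HF.coord 1).pow m)).mul
        ((HF.coord 3).pow l)).smul c).congr (by ring) fun _ => rfl, fun s t u v => by
          simp only [Matrix.cons_val]; ring⟩
    · obtain ⟨m, rfl⟩ := Nat.exists_eq_add_of_le hik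
      obtain rfl : l = m + j := by omega
      exact ⟨_, (((((HF.coord 0).pow k).mul ((HF.coord 2).pow m)).mul
        ((HF.coord 3).pow j)).smul c).congr (by ring) fun _ => rfl, fun s t u v => by
          simp only [Matrix.cons_val]; ring⟩
  | zero a b => exact fun i j k l _ => ⟨_, HF.zero _, fun _ _ _ _ => by ring⟩
  | add _ _ ih ih' =>
    intro i j k l h
    obtain ⟨K, h1, h2⟩ := ih i j k l h
    obtain ⟨K', h1', h2'⟩ := ih' i j k l h
    exact ⟨_, h1.add h1', fun s t u v => by rw [h2, h2']; ring⟩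
  | ms _ ih =>
    intro i j k l h
    obtain ⟨K, h1, h2⟩ := ih (i + 1) j k l (by omega)
    exact ⟨K, h1.congr (by ring) fun _ => rfl, fun s t u v => by rw [h2]; ring⟩
  | mt _ ih =>
    intro i j k l h
    obtain ⟨K, h1, h2⟩ := ih i (j + 1) k l (by omega)
    exact ⟨K, h1.congr (by ring) fun _ => rfl, fun s t u v => by rw [h2]; ring⟩
  | mu _ ih =>
    intro i j k l h
    obtain ⟨K, h1, h2⟩ := ih i j (k + 1) l (by omega)
    exact ⟨K, h1, fun s t u v => by rw [h2]; ring⟩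
  | mv _ ih =>
    intro i j k l h
    obtain ⟨K, h1, h2⟩ := ih i j k (l + 1) (by omega)
    exact ⟨K, h1, fun s t u v => by rw [h2]; ring⟩

theorem lift (h : BH a a f) :
    ∃ K, HF a K ∧ ∀ s t u v, K ![s * u, t * u, s * v, t * v] = f s t u v := by
  obtain ⟨K, h1, h2⟩ := h.lift' 0 0 0 0 rfl
  exact ⟨K, h1, fun s t u v => by rw [h2]; ring⟩

theorem poly (h : BH a b f) (s t : ℂ) : ∃ P : Polynomial ℂ, P.natDegree ≤ b ∧
    (∀ u, f s t u 1 = P.eval u) ∧ f s t 1 0 = P.coeff b := by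
  induction h with
  | const c => exact ⟨Polynomial.C c, by simp, by simp, by simp⟩
  | zero a b => exact ⟨0, by simp, by simp, by simp⟩
  | add _ _ ih ih' =>
    obtain ⟨P, h1, h2, h3⟩ := ih
    obtain ⟨Q, k1, k2, k3⟩ := ih'
    exact ⟨P + Q, (Polynomial.natDegree_add_le _ _).trans (max_le h1 k1),
      fun u => by simp [h2, k2], by simp [h3, k3]⟩
  | ms _ ih =>
    obtain ⟨P, h1, h2, h3⟩ := ih
    exact ⟨Polynomial.C s * P, (Polynomial.natDegree_C_mul_le _ _).trans h1,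
      fun u => by simp [h2], by simp [h3]⟩
  | mt _ ih =>
    obtain ⟨P, h1, h2, h3⟩ := ih
    exact ⟨Polynomial.C t * P, (Polynomial.natDegree_C_mul_le _ _).trans h1,
      fun u => by simp [h2], by simp [h3]⟩
  | mu _ ih =>
    obtain ⟨P, h1, h2, h3⟩ := ih
    refine ⟨Polynomial.X * P, Polynomial.natDegree_mul_le.trans ?_, fun u => by simp [h2],
      by simp [h3]⟩
    have := Polynomial.natDegree_X_le (R := ℂ)
    omega
  | mv _ ih =>
    obtain ⟨P, h1, h2, h3⟩ := ih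
    exact ⟨P, h1.trans (Nat.le_succ _), fun u => by simp [h2],
      by rw [Polynomial.coeff_eq_zero_of_natDegree_lt (Nat.lt_succ_of_le h1)]; exact zero_mul _⟩

/-- A binary form of positive degree has a nontrivial zero. -/
theorem root (h : BH a (b + 1) f) (s t : ℂ) : ∃ u v, (u ≠ 0 ∨ v ≠ 0) ∧ f s t u v = 0 := by
  obtain ⟨P, h1, h2, h3⟩ := h.poly s t
  by_cases h0 : f s t 1 0 = 0
  · exact ⟨1, 0, Or.inl one_ne_zero, h0⟩
  · rw [h3] at h0
    have hd : P.degree ≠ 0 := fun hd => h0 (Polynomial.coeff_eq_zero_of_degree_lt (by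
      rw [hd]; exact_mod_cast Nat.succ_pos b))
    obtain ⟨u, hu⟩ := IsAlgClosed.exists_root P hd
    exact ⟨u, 1, Or.inr one_ne_zero, (h2 u).trans hu⟩

end BH

end Pool.Agent.MP_b04567_ag

end

-- part MP_b04567_ag.Core
section

/-! Two by two matrices of forms whose determinant is a power of the quadric. -/

namespace Pool.Agent.MP_b04567_ag

open MvPolynomial

/-- The Segre point. -/
def seg (s t u v : ℂ) : Fin 4 → ℂ := ![s * u, t * u, s * v, t * v]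

/-- The cone over the zero set of a form on the quadric. -/
def zc (φ : ℂ → ℂ → ℂ → ℂ → ℂ) : Set (Fin 4 → ℂ) :=
  {p | ∃ s t u v : ℂ, p = seg s t u v ∧ φ s t u v = 0}

def Cut (Z : Set (Fin 4 → ℂ)) : Prop :=
  ∃ (F G : (Fin 4 → ℂ) → ℂ) (d e : ℕ), 0 < d ∧ 0 < e ∧ HF d F ∧ HF e G ∧ (∃ p, F p ≠ 0) ∧
    (∃ p, G p ≠ 0) ∧ ∀ p, p ∈ Z ↔ F p = 0 ∧ G p = 0

theorem Cut.cutByTwo {Z : Set (Fin 4 → ℂ)} (h : Cut Z) : CutByTwo Z := by
  obtain ⟨F, G, d, e, hd, he, ⟨L, h1, h2⟩, ⟨M, k1, k2⟩, ⟨p, hp⟩, ⟨p', hp'⟩, h⟩ := h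
  refine ⟨L, M, d, e, hd, he, ?_, ?_, h1, k1, ?_⟩
  · rintro rfl
    exact hp (by rw [← h2, map_zero])
  · rintro rfl
    exact hp' (by rw [← k2, map_zero])
  · ext p
    rw [h, Set.mem_ofPred_eq, h2, k2]

def qd (p : Fin 4 → ℂ) : ℂ := p 0 * p 3 - p 1 * p 2

theorem hf_qd : HF 2 qd := ((HF.coord 0).mul (HF.coord 3)).sub ((HF.coord 1).mul (HF.coord 2))

theorem qd_seg (s t u v : ℂ) : qd (seg s t u v) = 0 := by
  simp only [qd, seg, Matrix.cons_val]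
  ring

theorem seg_of_qd {p : Fin 4 → ℂ} (h : qd p = 0) : ∃ s t u v, p = seg s t u v := by
  rw [qd] at h
  by_cases h0 : p 0 = 0
  · by_cases h1 : p 1 = 0
    · refine ⟨p 2, p 3, 0, 1, ?_⟩
      funext i
      fin_cases i <;> simp [seg, h0, h1]
    · have h2 : p 2 = 0 := by
        rw [h0, zero_mul, zero_sub, neg_eq_zero] at h
        exact (mul_eq_zero.1 h).resolve_left h1
      refine ⟨0, p 1, 1, p 3 / p 1, ?_⟩
      funext i
      fin_cases i <;> simp [seg, h0, h2, mul_div_cancel₀ _ h1]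
  · refine ⟨p 0, p 1, 1, p 2 / p 0, ?_⟩
    funext i
    fin_cases i
    · simp [seg]
    · simp [seg]
    · simp [seg, mul_div_cancel₀ _ h0]
    · have : p 3 = p 1 * (p 2 / p 0) := by
        field_simp
        linear_combination h
      simpa [seg] using this

theorem mem_zc_iff {F G D R : (Fin 4 → ℂ) → ℂ} {N : ℕ} {φ α β : ℂ → ℂ → ℂ → ℂ → ℂ}
    (hq : ∀ p, qd p ^ N = D p * G p + R p * F p)
    (hF : ∀ s t u v, F (seg s t u v) = α s t u v * φ s t u v)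
    (hG : ∀ s t u v, G (seg s t u v) = β s t u v * φ s t u v)
    (h0 : ∀ s t u v, α s t u v = 0 → β s t u v = 0 → φ s t u v = 0) (p : Fin 4 → ℂ) :
    p ∈ zc φ ↔ F p = 0 ∧ G p = 0 := by
  constructor
  · rintro ⟨s, t, u, v, rfl, h⟩
    rw [hF, hG, h, mul_zero, mul_zero]
    exact ⟨rfl, rfl⟩
  · rintro ⟨h1, h2⟩
    have h3 := hq p
    rw [h1, h2, mul_zero, mul_zero, add_zero] at h3
    obtain ⟨s, t, u, v, rfl⟩ := seg_of_qd (eq_zero_of_pow_eq_zero h3)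
    refine ⟨s, t, u, v, rfl, ?_⟩
    by_contra hφ
    rw [hF] at h1
    rw [hG] at h2
    exact hφ (h0 s t u v ((mul_eq_zero.1 h1).resolve_right hφ)
      ((mul_eq_zero.1 h2).resolve_right hφ))

noncomputable def geo (n : ℕ) (p : Fin 4 → ℂ) : ℂ :=
  ∑ i ∈ Finset.range (n + 1), qd p ^ i * (-(p 1 * p 2)) ^ (n - i)

theorem hf_geo (n : ℕ) : HF (2 * n) (geo n) :=
  HF.sum _ fun i hi => ((hf_qd.pow i).mul
    (((HF.coord 1).mul (HF.coord 2)).neg.pow (n - i))).congr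
      (by have := Finset.mem_range.1 hi; omega) fun _ => rfl

theorem geo_mul (n : ℕ) (p : Fin 4 → ℂ) :
    geo n p * (p 0 * p 3) = qd p ^ (n + 1) - (-(p 1 * p 2)) ^ (n + 1) := by
  rw [← geom_sum₂_mul, geo, Nat.add_sub_cancel, qd]
  ring

theorem geo_seg (n : ℕ) (s t u v : ℂ) : geo n (seg s t u v) = (-(t * u * (s * v))) ^ n := by
  rw [geo, Finset.sum_range_succ', qd_seg]
  simp [seg]

section Level

variable (n : ℕ) (K L : (Fin 4 → ℂ) → ℂ)

noncomputable def mP (p : Fin 4 → ℂ) : ℂ := (-1) ^ n * (p 1 ^ (n + 1) + L p * p 0)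

noncomputable def mR (p : Fin 4 → ℂ) : ℂ := p 2 ^ (n + 1) + K p * p 0

noncomputable def mD (p : Fin 4 → ℂ) : ℂ :=
  p 3 * geo n p + (-1) ^ n * (K p * p 1 ^ (n + 1) + L p * p 2 ^ (n + 1) + K p * L p * p 0)

theorem level1 (p : Fin 4 → ℂ) :
    qd p ^ (n + 1) = p 0 * mD n K L p - mP n L p * mR n K p := by
  have h := geo_mul n p
  rw [neg_pow (p 1 * p 2), mul_pow] at h
  rw [mD, mP, mR]
  linear_combination -h

variable {n K L}

theorem hf_mP (hL : HF n L) : HF (n + 1) (mP n L) :=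
  ((((HF.coord 1).pow (n + 1)).congr (one_mul _) fun _ => rfl).add
    (hL.mul (HF.coord 0))).smul _

theorem hf_mR (hK : HF n K) : HF (n + 1) (mR n K) :=
  (((HF.coord 2).pow (n + 1)).congr (one_mul _) fun _ => rfl).add (hK.mul (HF.coord 0))

theorem hf_mD (hK : HF n K) (hL : HF n L) : HF (2 * n + 1) (mD n K L) :=
  (((HF.coord 3).mul (hf_geo n)).congr (by ring) fun _ => rfl).add
    (((((hK.mul ((HF.coord 1).pow (n + 1))).congr (by ring) fun _ => rfl).add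
      ((hL.mul ((HF.coord 2).pow (n + 1))).congr (by ring) fun _ => rfl)).add
      (((hK.mul hL).mul (HF.coord 0)).congr (by ring) fun _ => rfl)).smul _)

theorem mP_seg (s t u v : ℂ) : mP n L (seg s t u v) =
    (-1) ^ n * (u * (u ^ n * t ^ (n + 1) + s * L (seg s t u v))) := by
  have h1 : seg s t u v 1 = t * u := rfl
  have h0 : seg s t u v 0 = s * u := rfl
  rw [mP, h1, h0]
  ring

theorem mR_seg (s t u v : ℂ) : mR n K (seg s t u v) =
    s * (s ^ n * v ^ (n + 1) + u * K (seg s t u v)) := by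
  have h1 : seg s t u v 2 = s * v := rfl
  have h0 : seg s t u v 0 = s * u := rfl
  rw [mR, h1, h0]
  ring

theorem mD_seg (s t u v : ℂ) : mD n K L (seg s t u v) =
    (-1) ^ n * ((u ^ n * t ^ (n + 1) + s * L (seg s t u v)) *
      (s ^ n * v ^ (n + 1) + u * K (seg s t u v))) := by
  have h3 : seg s t u v 3 = t * v := rfl
  have h2 : seg s t u v 2 = s * v := rfl
  have h1 : seg s t u v 1 = t * u := rfl
  have h0 : seg s t u v 0 = s * u := rfl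
  rw [mD, geo_seg, h3, h2, h1, h0, neg_pow (t * u * (s * v))]
  ring

end Level

theorem BH.zero1 {a b : ℕ} {f : ℂ → ℂ → ℂ → ℂ → ℂ} (h : BH (a + 1) b f) (u v : ℂ) :
    f 0 0 u v = 0 := by
  simpa using h.hom1 0 0 0 u v

/-- One step: a ruling line meeting the curve in a single point. -/
theorem cut_one {m : ℕ} {κ : ℂ → ℂ → ℂ → ℂ → ℂ} (hκ : BH (m + 1) (m + 1) κ) :
    Cut (zc fun s t u v => s ^ (m + 1) * v ^ (m + 2) + u * κ s t u v) := by
  obtain ⟨K, hK, hK'⟩ := hκ.lift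
  have hε : ((-1 : ℂ)) ^ (m + 1) ≠ 0 := pow_ne_zero _ (by norm_num)
  refine ⟨mR (m + 1) K, mD (m + 1) K fun _ => 0, _, _, by omega, by omega, hf_mR hK,
    hf_mD hK (HF.zero _), ⟨seg 1 0 0 1, ?_⟩, ⟨![1, 0, 0, 1], fun h => ?_⟩,
    mem_zc_iff (N := m + 2) (D := fun p => p 0) (R := fun p => -mP (m + 1) (fun _ => 0) p)
      (α := fun s _ _ _ => s) (β := fun _ t u _ => (-1) ^ (m + 1) * (u ^ (m + 1) * t ^ (m + 2)))
      (fun p => ?_) (fun s t u v => ?_) (fun s t u v => ?_) fun s t u v hs h => ?_⟩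
  · rw [mR_seg]
    simp
  · have h1 := level1 (m + 1) K (fun _ => 0) ![1, 0, 0, 1]
    rw [h] at h1
    simp [qd, mP] at h1
  · rw [level1 (m + 1) K (fun _ => 0) p]
    ring
  · rw [mR_seg, seg, hK']
  · rw [mD_seg, seg, hK']
    ring
  · subst hs
    rcases mul_eq_zero.1 ((mul_eq_zero.1 h).resolve_left hε) with h | h
    · rw [pow_eq_zero_iff (by omega)] at h
      simp [h]
    · rw [pow_eq_zero_iff (by omega)] at h
      simp [h, hκ.zero1]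

/-- Two steps. -/
theorem cut_two {m : ℕ} {κ l l' φ : ℂ → ℂ → ℂ → ℂ → ℂ} (hκ : BH (m + 1) (m + 1) κ)
    (hl : BH (m + 1) (m + 1) l) (hl' : BH 1 1 l')
    (hφ : ∀ s t u v, φ s t u v = u ^ 2 * (u ^ (m + 1) * t ^ (m + 2) + s * l s t u v) +
      l' s t u v * (s ^ (m + 1) * v ^ (m + 2) + u * κ s t u v))
    (h1 : ∃ v, φ 0 1 1 v ≠ 0) (h2 : ∃ t, φ 1 t 0 1 ≠ 0) : Cut (zc φ) := by
  obtain ⟨K, hK, hK'⟩ := hκ.lift
  obtain ⟨L, hL, hL'⟩ := hl.lift
  obtain ⟨M, hM, hM'⟩ := hl'.lift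
  obtain ⟨ε, hε⟩ : ∃ ε : ℂ, ε = (-1) ^ (m + 1) := ⟨_, rfl⟩
  have hε2 : ε ^ 2 = 1 := by rw [hε, ← pow_mul, mul_comm, pow_mul]; simp
  have hε0 : ε ≠ 0 := hε ▸ pow_ne_zero _ (by norm_num)
  have hF : ∀ s t u v, mP (m + 1) L (seg s t u v) ^ 2 +
      ε * M (seg s t u v) * mD (m + 1) K L (seg s t u v) =
      (u ^ (m + 1) * t ^ (m + 2) + s * l s t u v) * φ s t u v := fun s t u v => by
    rw [mP_seg, mD_seg, seg, hK', hL', hM', hφ, ← hε]
    linear_combination ((u ^ (m + 1) * t ^ (m + 2) + s * l s t u v) *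
      (u ^ 2 * (u ^ (m + 1) * t ^ (m + 2) + s * l s t u v) +
      l' s t u v * (s ^ (m + 1) * v ^ (m + 2) + u * κ s t u v))) * hε2
  have hG : ∀ s t u v, seg s t u v 0 * (qd (seg s t u v) ^ (m + 2) -
      mP (m + 1) L (seg s t u v) * mR (m + 1) K (seg s t u v)) -
      ε * M (seg s t u v) * mR (m + 1) K (seg s t u v) ^ 2 =
      (-ε * (s ^ 2 * (s ^ (m + 1) * v ^ (m + 2) + u * κ s t u v))) * φ s t u v :=
    fun s t u v => by
      have h0 : seg s t u v 0 = s * u := rfl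
      rw [h0, qd_seg, mP_seg, mR_seg, seg, hK', hL', hM', hφ, ← hε]
      ring
  refine ⟨fun p => mP (m + 1) L p ^ 2 + ε * M p * mD (m + 1) K L p,
    fun p => p 0 * (qd p ^ (m + 2) - mP (m + 1) L p * mR (m + 1) K p) -
      ε * M p * mR (m + 1) K p ^ 2, 2 * m + 4, 2 * m + 5, by omega, by omega,
    (((hf_mP hL).pow 2).congr (by ring) fun _ => rfl).add
      (((hM.smul ε).mul (hf_mD hK hL)).congr (by ring) fun _ => rfl),
    (((HF.coord 0).mul (((hf_qd.pow (m + 2)).congr (e := 2 * m + 4) (by ring) fun _ => rfl).sub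
      (((hf_mP hL).mul (hf_mR hK)).congr (by ring) fun _ => rfl))).congr (by ring)
        fun _ => rfl).sub
      (((hM.smul ε).mul ((hf_mR hK).pow 2)).congr (by ring) fun _ => rfl), ?_, ?_,
    mem_zc_iff (N := 2 * (m + 2)) (D := mD (m + 1) K L) (R := fun p => mR (m + 1) K p ^ 2)
      (fun p => ?_) hF hG fun s t u v ha hb => ?_⟩
  · obtain ⟨v, hv⟩ := h1
    refine ⟨seg 0 1 1 v, ?_⟩
    beta_reduce
    rw [hF]
    simpa using hv
  · obtain ⟨t, ht⟩ := h2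
    refine ⟨seg 1 t 0 1, ?_⟩
    beta_reduce
    rw [hG]
    simpa [hε0] using ht
  · have h := level1 (m + 1) K L p
    rw [mul_comm 2, pow_mul]
    linear_combination (qd p ^ (m + 2) - mP (m + 1) L p * mR (m + 1) K p) * h
  · rw [hφ, ha, mul_zero, zero_add]
    rcases mul_eq_zero.1 ((mul_eq_zero.1 hb).resolve_left (neg_ne_zero.2 hε0)) with h | h
    · rw [pow_eq_zero_iff (by omega)] at h
      subst h
      rw [zero_mul, add_zero] at ha
      rcases mul_eq_zero.1 ha with h | h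
      · rw [pow_eq_zero_iff (by omega)] at h
        simp [h]
      · rw [pow_eq_zero_iff (by omega)] at h
        simp [h, hκ.zero1]
    · rw [h, mul_zero]

/-- The linear map induced by a pair of two by two matrices. -/
def tens (x₁ x₂ x₃ x₄ y₁ y₂ y₃ y₄ : ℂ) (p : Fin 4 → ℂ) : Fin 4 → ℂ :=
  ![x₁ * y₁ * p 0 + x₂ * y₁ * p 1 + x₁ * y₂ * p 2 + x₂ * y₂ * p 3,
    x₃ * y₁ * p 0 + x₄ * y₁ * p 1 + x₃ * y₂ * p 2 + x₄ * y₂ * p 3,
    x₁ * y₃ * p 0 + x₂ * y₃ * p 1 + x₁ * y₄ * p 2 + x₂ * y₄ * p 3,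
    x₃ * y₃ * p 0 + x₄ * y₃ * p 1 + x₃ * y₄ * p 2 + x₄ * y₄ * p 3]

theorem tens_seg (x₁ x₂ x₃ x₄ y₁ y₂ y₃ y₄ s t u v : ℂ) :
    tens x₁ x₂ x₃ x₄ y₁ y₂ y₃ y₄ (seg s t u v) =
      seg (x₁ * s + x₂ * t) (x₃ * s + x₄ * t) (y₁ * u + y₂ * v) (y₃ * u + y₄ * v) := by
  funext i
  fin_cases i <;> simp [tens, seg] <;> ring

theorem tens_tens {x₁ x₂ x₃ x₄ y₁ y₂ y₃ y₄ : ℂ} (hx : x₁ * x₄ - x₂ * x₃ = 1)
    (hy : y₁ * y₄ - y₂ * y₃ = 1) (p : Fin 4 → ℂ) :
    tens x₄ (-x₂) (-x₃) x₁ y₄ (-y₂) (-y₃) y₁ (tens x₁ x₂ x₃ x₄ y₁ y₂ y₃ y₄ p) = p := by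
  have h : (x₁ * x₄ - x₂ * x₃) * (y₁ * y₄ - y₂ * y₃) = 1 := by rw [hx, hy, mul_one]
  funext i
  fin_cases i
  · simp only [tens, Fin.zero_eta, Matrix.cons_val]
    linear_combination p 0 * h
  · simp only [tens, Fin.mk_one, Matrix.cons_val]
    linear_combination p 1 * h
  · simp only [tens, Fin.reduceFinMk, Matrix.cons_val]
    linear_combination p 2 * h
  · simp only [tens, Fin.reduceFinMk, Matrix.cons_val]
    linear_combination p 3 * h

theorem hf_lin (a b c d : ℂ) : HF 1 fun p => a * p 0 + b * p 1 + c * p 2 + d * p 3 :=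
  ((((HF.coord 0).smul a).add ((HF.coord 1).smul b)).add ((HF.coord 2).smul c)).add
    ((HF.coord 3).smul d)

theorem HF.tens {d : ℕ} {f : (Fin 4 → ℂ) → ℂ} (h : HF d f) (x₁ x₂ x₃ x₄ y₁ y₂ y₃ y₄ : ℂ) :
    HF d fun p => f (tens x₁ x₂ x₃ x₄ y₁ y₂ y₃ y₄ p) := by
  refine h.comp (T := fun i p => MP_b04567_ag.tens x₁ x₂ x₃ x₄ y₁ y₂ y₃ y₄ p i) fun i => ?_
  fin_cases i <;> exact hf_lin _ _ _ _

theorem Cut.transport {φ : ℂ → ℂ → ℂ → ℂ → ℂ} {x₁ x₂ x₃ x₄ y₁ y₂ y₃ y₄ : ℂ}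
    (hx : x₁ * x₄ - x₂ * x₃ = 1) (hy : y₁ * y₄ - y₂ * y₃ = 1)
    (h : Cut (zc fun s t u v =>
      φ (x₁ * s + x₂ * t) (x₃ * s + x₄ * t) (y₁ * u + y₂ * v) (y₃ * u + y₄ * v))) :
    Cut (zc φ) := by
  obtain ⟨F, G, d, e, hd, he, hF, hG, ⟨p, hp⟩, ⟨p', hp'⟩, h⟩ := h
  have hx' : x₄ * x₁ - -x₂ * -x₃ = 1 := by linear_combination hx
  have hy' : y₄ * y₁ - -y₂ * -y₃ = 1 := by linear_combination hy
  refine ⟨_, _, d, e, hd, he, hF.tens x₄ (-x₂) (-x₃) x₁ y₄ (-y₂) (-y₃) y₁,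
    hG.tens x₄ (-x₂) (-x₃) x₁ y₄ (-y₂) (-y₃) y₁, ⟨tens x₁ x₂ x₃ x₄ y₁ y₂ y₃ y₄ p, ?_⟩,
    ⟨tens x₁ x₂ x₃ x₄ y₁ y₂ y₃ y₄ p', ?_⟩, fun p => ?_⟩
  · rwa [tens_tens hx hy]
  · rwa [tens_tens hx hy]
  · rw [← h]
    constructor
    · rintro ⟨s, t, u, v, rfl, h0⟩
      refine ⟨_, _, _, _, tens_seg _ _ _ _ _ _ _ _ s t u v, ?_⟩
      have e1 : x₁ * (x₄ * s + -x₂ * t) + x₂ * (-x₃ * s + x₁ * t) = s := by
        linear_combination s * hx
      have e2 : x₃ * (x₄ * s + -x₂ * t) + x₄ * (-x₃ * s + x₁ * t) = t := by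
        linear_combination t * hx
      have e3 : y₁ * (y₄ * u + -y₂ * v) + y₂ * (-y₃ * u + y₁ * v) = u := by
        linear_combination u * hy
      have e4 : y₃ * (y₄ * u + -y₂ * v) + y₄ * (-y₃ * u + y₁ * v) = v := by
        linear_combination v * hy
      beta_reduce
      rw [e1, e2, e3, e4, h0]
    · rintro ⟨s, t, u, v, h0, h1⟩
      refine ⟨_, _, _, _, ?_, h1⟩
      rw [← tens_seg, ← h0]
      have := tens_tens hx' hy' p
      simp only [neg_neg] at this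
      exact this.symm

end Pool.Agent.MP_b04567_ag

end

-- part MP_b04567_ag.Normal
section

/-! Normal form of a curve of bidegree (k, k+1) along a ruling line of contact at least k-1. -/

namespace Pool.Agent.MP_b04567_ag

theorem Cut.scale {φ ψ : ℂ → ℂ → ℂ → ℂ → ℂ} {c : ℂ} (hc : c ≠ 0)
    (h : ∀ s t u v, φ s t u v = c * ψ s t u v) (hψ : Cut (zc ψ)) : Cut (zc φ) := by
  have : zc φ = zc ψ := by
    ext p
    simp only [zc, Set.mem_ofPred_eq, h, mul_eq_zero, hc, false_or]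
  rwa [this]

theorem BH.const' {f : ℂ → ℂ → ℂ → ℂ → ℂ} (h : BH 0 0 f) : ∃ c, ∀ s t u v, f s t u v = c :=
  ⟨f 0 0 0 0, fun s t u v => (h.indep1 s t 0 0 u v).trans (h.indep2 0 0 u v 0 0)⟩

theorem cut_normal {m : ℕ} {φ : ℂ → ℂ → ℂ → ℂ → ℂ} (hφ : BH (m + 2) (m + 3) φ) {a b : ℂ}
    (hab : a ≠ 0 ∨ b ≠ 0) (hfib : ∀ s t, φ s t 0 1 = s ^ (m + 1) * (a * s + b * t))
    (hline : ∃ u v, φ 0 1 u v ≠ 0) : Cut (zc φ) := by
  obtain ⟨φ₀, φ', hφ₀, hφ', e₀⟩ := hφ.div2 (l₁ := 1) (l₂ := 0) (m₁ := 0) (m₂ := 1) (by norm_num)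
  have e₀' : ∀ s t u v, φ₀ s t u v = s ^ (m + 1) * (a * s + b * t) := fun s t u v => by
    rw [hφ₀.indep2 s t u v 0 1, ← hfib, e₀]
    ring
  by_cases hb : b = 0
  · have ha : a ≠ 0 := hab.resolve_right (not_not.2 hb)
    obtain ⟨r, hr⟩ : ∃ r, r * a = 1 := ⟨_, inv_mul_cancel₀ ha⟩
    refine Cut.scale ha (fun s t u v => ?_) (cut_one (m := m + 1) (hφ'.smul r))
    rw [e₀, e₀', hb]
    linear_combination (-u * φ' s t u v) * hr
  obtain ⟨r, hr⟩ : ∃ r, r * b = 1 := ⟨_, inv_mul_cancel₀ hb⟩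
  obtain ⟨φ₁, φ'', hφ₁, hφ'', e₁⟩ :=
    hφ'.div2 (l₁ := 1) (l₂ := 0) (m₁ := 0) (m₂ := 1) (by norm_num)
  obtain ⟨c₁', κ₀, hc₁, hκ₀, e₂⟩ :=
    hφ₁.div1 (l₁ := a) (l₂ := b) (m₁ := 1) (m₂ := 0) (by simpa using hb)
  obtain ⟨c₁, e₂'⟩ := hc₁.const'
  obtain ⟨θ, hθ⟩ : ∃ θ, φ 0 1 1 (-θ) ≠ 0 := by
    obtain ⟨u, v, h⟩ := hline
    have hu : u ≠ 0 := by
      rintro rfl
      refine h ?_
      have := hφ.hom2 v 0 1 0 1
      rw [hfib, mul_zero, mul_one] at this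
      rw [this]
      simp
    refine ⟨-(v / u), fun h0 => h ?_⟩
    have := hφ.hom2 u 0 1 1 (- -(v / u))
    rw [h0, mul_one, neg_neg, mul_div_cancel₀ _ hu, mul_zero] at this
    exact this
  have hlin : BH 1 0 fun s t _ _ => c₁ * s + θ * (a * s + b * t) :=
    (BH.lin1 (c₁ + θ * a) (θ * b)).congr rfl rfl fun _ _ _ _ => by ring
  have hκ₁ : BH (m + 1) 0 fun s t u v => κ₀ s t u v - θ * s ^ (m + 1) :=
    hκ₀.sub ((BH.ps (m + 1)).smul θ)
  have hψ : BH (m + 2) (m + 1) fun s t u v => φ'' s t u v -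
      v ^ (m + 1) * (c₁ * s + θ * (a * s + b * t)) * (κ₀ s t u v - θ * s ^ (m + 1)) :=
    hφ''.sub ((((BH.pv (m + 1)).mul hlin).mul hκ₁).congr (by ring) (by ring) fun _ _ _ _ => rfl)
  obtain ⟨ψ₀, ψ', hψ₀, hψ', e₃⟩ :=
    hψ.div1 (l₁ := 1) (l₂ := 0) (m₁ := 0) (m₂ := 1) (by norm_num)
  obtain ⟨c', χ, hc, hχ, e₄⟩ :=
    hψ₀.div2 (l₁ := θ) (l₂ := 1) (m₁ := 1) (m₂ := 0) (by norm_num)
  obtain ⟨c, e₄'⟩ := hc.const'
  have hl' : BH 1 1 fun s t u v => v * (a * s + b * t) + u * (c₁ * s + θ * (a * s + b * t)) :=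
    (BH.lin1 a b).mv.add hlin.mu
  have hκ : BH (m + 1) (m + 1) fun s t u v =>
      v ^ (m + 1) * (κ₀ s t u v - θ * s ^ (m + 1)) + r * (u * (t ^ (m + 1) * χ s t u v)) :=
    (((BH.pv (m + 1)).mul hκ₁).congr (by ring) (by ring) fun _ _ _ _ => rfl).add
      ((((BH.pt (m + 1)).mul hχ).mu.smul r).congr (by ring) (by ring) fun _ _ _ _ => rfl)
  have hl : BH (m + 1) (m + 1) fun s t u v =>
      ψ' s t u v - r * (t ^ (m + 1) * χ s t u v * ((c₁ + θ * a) * u + a * v)) :=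
    hψ'.sub (((((BH.pt (m + 1)).mul hχ).mul (BH.lin2 (c₁ + θ * a) a)).smul r).congr
      (by ring) (by ring) fun _ _ _ _ => rfl)
  have key : ∀ s t u v, φ s t u v =
      u ^ 2 * (c * (u ^ (m + 1) * t ^ (m + 2)) +
        s * (ψ' s t u v - r * (t ^ (m + 1) * χ s t u v * ((c₁ + θ * a) * u + a * v)))) +
      (v * (a * s + b * t) + u * (c₁ * s + θ * (a * s + b * t))) *
        (s ^ (m + 1) * v ^ (m + 2) + u * (v ^ (m + 1) * (κ₀ s t u v - θ * s ^ (m + 1)) +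
          r * (u * (t ^ (m + 1) * χ s t u v)))) := fun s t u v => by
    have h0 := e₀ s t u v
    have h1 := e₁ s t u v
    have h2 := e₂ s t u v
    have h3 := e₃ s t u v
    have h4 := e₄ s t u v
    rw [e₀'] at h0
    rw [e₂'] at h2
    rw [e₄'] at h4
    linear_combination h0 + u * h1 + u * v ^ (m + 2) * h2 + u ^ 2 * h3 +
      u ^ 2 * t ^ (m + 2) * h4 - u ^ 2 * t ^ (m + 2) * χ s t u v * (θ * u + v) * hr
  have hc0 : c ≠ 0 := by
    rintro rfl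
    refine hθ ?_
    rw [key]
    ring
  obtain ⟨r', hr'⟩ : ∃ r', r' * c = 1 := ⟨_, inv_mul_cancel₀ hc0⟩
  have hr0 : r' ≠ 0 := left_ne_zero_of_mul_eq_one hr'
  refine Cut.scale (ψ := fun s t u v => r' * φ s t u v) hc0
    (fun s t u v => by linear_combination (-φ s t u v) * hr')
    (cut_two hκ (hl.smul r') (hl'.smul r') (fun s t u v => ?_) ⟨-θ, mul_ne_zero hr0 hθ⟩
      ⟨r * (1 - a), mul_ne_zero hr0 ?_⟩)
  · rw [key]
    linear_combination (u ^ 2 * (u ^ (m + 1) * t ^ (m + 2))) * hr'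
  · have : a * 1 + b * (r * (1 - a)) = 1 := by linear_combination (1 - a) * hr
    rw [hfib, this]
    simp

theorem exists_unimod {x y : ℂ} (h : x ≠ 0 ∨ y ≠ 0) : ∃ a b : ℂ, a * y - x * b = 1 := by
  rcases h with h | h
  · exact ⟨0, -x⁻¹, by field_simp; ring⟩
  · exact ⟨y⁻¹, 0, by field_simp; ring⟩

theorem cut_contact {m : ℕ} {φ : ℂ → ℂ → ℂ → ℂ → ℂ} (hφ : BH (m + 2) (m + 3) φ)
    {s₀ t₀ u₀ v₀ a b : ℂ} (hst : s₀ ≠ 0 ∨ t₀ ≠ 0) (huv : u₀ ≠ 0 ∨ v₀ ≠ 0) (hab : a ≠ 0 ∨ b ≠ 0)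
    (hfib : ∀ s t, φ s t u₀ v₀ = (t₀ * s - s₀ * t) ^ (m + 1) * (a * s + b * t))
    (hline : ∃ u v, φ s₀ t₀ u v ≠ 0) : Cut (zc φ) := by
  obtain ⟨x, x', hx⟩ := exists_unimod hst
  obtain ⟨y, y', hy⟩ := exists_unimod huv
  refine Cut.transport hx hy (cut_normal (hφ.subst x s₀ x' t₀ y u₀ y' v₀)
    (a := a * x + b * x') (b := a * s₀ + b * t₀) ?_ (fun s t => ?_) ?_)
  · by_contra h
    rw [not_or, not_not, not_not] at h
    obtain ⟨h1, h2⟩ := h
    have ha : a = 0 := by linear_combination t₀ * h1 - x' * h2 - a * hx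
    have hb : b = 0 := by linear_combination x * h2 - s₀ * h1 - b * hx
    exact hab.elim (fun h => h ha) fun h => h hb
  · have h1 : t₀ * (x * s + s₀ * t) - s₀ * (x' * s + t₀ * t) = s := by linear_combination s * hx
    simp only [mul_zero, mul_one, zero_add]
    rw [hfib, h1]
    ring
  · obtain ⟨u, v, h⟩ := hline
    refine ⟨v₀ * u - u₀ * v, y * v - y' * u, ?_⟩
    have h1 : y * (v₀ * u - u₀ * v) + u₀ * (y * v - y' * u) = u := by linear_combination u * hy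
    have h2 : y' * (v₀ * u - u₀ * v) + v₀ * (y * v - y' * u) = v := by linear_combination v * hy
    simpa only [mul_zero, mul_one, zero_add, h1, h2] using h

/-- A nonzero binary cubic with zero discriminant has a double root. -/
theorem cubic_double {c₀ c₁ c₂ c₃ : ℂ} (hne : ∃ s t : ℂ,
      c₀ * s ^ 3 + c₁ * s ^ 2 * t + c₂ * s * t ^ 2 + c₃ * t ^ 3 ≠ 0)
    (hD : c₁ ^ 2 * c₂ ^ 2 - 4 * c₀ * c₂ ^ 3 - 4 * c₁ ^ 3 * c₃ + 18 * c₀ * c₁ * c₂ * c₃ -
      27 * c₀ ^ 2 * c₃ ^ 2 = 0) :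
    ∃ s₀ t₀ a b : ℂ, (s₀ ≠ 0 ∨ t₀ ≠ 0) ∧ (a ≠ 0 ∨ b ≠ 0) ∧ ∀ s t : ℂ,
      c₀ * s ^ 3 + c₁ * s ^ 2 * t + c₂ * s * t ^ 2 + c₃ * t ^ 3 =
        (t₀ * s - s₀ * t) ^ 2 * (a * s + b * t) := by
  suffices h : ∃ s₀ t₀ a b : ℂ, (s₀ ≠ 0 ∨ t₀ ≠ 0) ∧ ∀ s t : ℂ,
      c₀ * s ^ 3 + c₁ * s ^ 2 * t + c₂ * s * t ^ 2 + c₃ * t ^ 3 =
        (t₀ * s - s₀ * t) ^ 2 * (a * s + b * t) by
    obtain ⟨s₀, t₀, a, b, h1, h2⟩ := h
    refine ⟨s₀, t₀, a, b, h1, ?_, h2⟩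
    by_contra h
    rw [not_or, not_not, not_not] at h
    obtain ⟨s, t, hst⟩ := hne
    exact hst (by rw [h2, h.1, h.2]; ring)
  by_cases h0 : c₀ = 0
  · subst h0
    by_cases h1 : c₁ = 0
    · subst h1
      exact ⟨1, 0, c₂, c₃, Or.inl one_ne_zero, fun s t => by ring⟩
    · have h2 : c₂ ^ 2 - 4 * c₁ * c₃ = 0 := by
        refine (mul_eq_zero.1 (?_ : c₁ ^ 2 * _ = 0)).resolve_left (pow_ne_zero 2 h1)
        linear_combination hD
      obtain ⟨r, hr⟩ : ∃ r, r * c₁ = 1 := ⟨_, inv_mul_cancel₀ h1⟩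
      refine ⟨-(c₂ * r / 2), 1, 0, c₁, Or.inr one_ne_zero, fun s t => ?_⟩
      linear_combination (-(s * t ^ 2 * c₂) - t ^ 3 * c₃ - t ^ 3 * r * c₂ ^ 2 / 4) * hr -
        (t ^ 3 * r / 4) * h2
  · obtain ⟨x, hx⟩ := IsAlgClosed.exists_root
      (Polynomial.C c₀ * Polynomial.X ^ 3 + Polynomial.C c₁ * Polynomial.X ^ 2 +
        Polynomial.C c₂ * Polynomial.X + Polynomial.C c₃)
      (by rw [Polynomial.degree_cubic h0]; norm_num)
    have hx' : c₀ * x ^ 3 + c₁ * x ^ 2 + c₂ * x + c₃ = 0 := by simpa using hx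
    obtain ⟨e₁, rfl⟩ : ∃ e₁, c₁ = e₁ - c₀ * x := ⟨c₁ + c₀ * x, by ring⟩
    obtain ⟨e₂, rfl⟩ : ∃ e₂, c₂ = e₂ - e₁ * x := ⟨c₂ + e₁ * x, by ring⟩
    obtain rfl : c₃ = -e₂ * x := by linear_combination hx'
    have h2 : (e₁ ^ 2 - 4 * c₀ * e₂) * (c₀ * x ^ 2 + e₁ * x + e₂) ^ 2 = 0 := by
      linear_combination hD
    rcases mul_eq_zero.1 h2 with h | h
    · obtain ⟨r, hr⟩ : ∃ r, r * c₀ = 1 := ⟨_, inv_mul_cancel₀ h0⟩
      refine ⟨-(e₁ * r / 2), 1, c₀, -c₀ * x, Or.inr one_ne_zero, fun s t => ?_⟩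
      linear_combination ((s - x * t) * (-(s * t * e₁) - t ^ 2 * e₂ - t ^ 2 * r * e₁ ^ 2 / 4)) * hr -
        ((s - x * t) * t ^ 2 * r / 4) * h
    · rw [pow_eq_zero_iff (by norm_num)] at h
      refine ⟨x, 1, c₀, e₁ + c₀ * x, Or.inr one_ne_zero, fun s t => ?_⟩
      linear_combination ((s - x * t) * t ^ 2) * h

theorem cut_septic {φ : ℂ → ℂ → ℂ → ℂ → ℂ} (hφ : BH 3 4 φ)
    (h1 : ∀ u v : ℂ, u ≠ 0 ∨ v ≠ 0 → ∃ s t, φ s t u v ≠ 0)
    (h2 : ∀ s t : ℂ, s ≠ 0 ∨ t ≠ 0 → ∃ u v, φ s t u v ≠ 0) : Cut (zc φ) := by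
  obtain ⟨c₃, f₂, k₃, hf₂, e₃⟩ := hφ.div1 (l₁ := 1) (l₂ := 0) (m₁ := 0) (m₂ := 1) (by norm_num)
  obtain ⟨c₂, f₁, k₂, hf₁, e₂⟩ := hf₂.div1 (l₁ := 1) (l₂ := 0) (m₁ := 0) (m₂ := 1) (by norm_num)
  obtain ⟨c₁, c₀, k₁, k₀, e₁⟩ := hf₁.div1 (l₁ := 1) (l₂ := 0) (m₁ := 0) (m₂ := 1) (by norm_num)
  have e : ∀ s t u v, φ s t u v = c₀ 0 0 u v * s ^ 3 + c₁ 0 0 u v * s ^ 2 * t +
      c₂ 0 0 u v * s * t ^ 2 + c₃ 0 0 u v * t ^ 3 := fun s t u v => by
    rw [e₃, e₂, e₁, k₀.indep1 s t 0 0, k₁.indep1 s t 0 0, k₂.indep1 s t 0 0, k₃.indep1 s t 0 0]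
    ring
  have hD : BH 0 (15 + 1) fun s t u v => c₁ s t u v ^ 2 * c₂ s t u v ^ 2 -
      4 * (c₀ s t u v * c₂ s t u v ^ 3) - 4 * (c₁ s t u v ^ 3 * c₃ s t u v) +
      18 * (c₀ s t u v * c₁ s t u v * c₂ s t u v * c₃ s t u v) -
      27 * (c₀ s t u v ^ 2 * c₃ s t u v ^ 2) :=
    (((((k₁.pow 2).mul (k₂.pow 2)).sub ((k₀.mul (k₂.pow 3)).smul 4)).sub
      (((k₁.pow 3).mul k₃).smul 4)).add ((((k₀.mul k₁).mul k₂).mul k₃).smul 18)).sub
      (((k₀.pow 2).mul (k₃.pow 2)).smul 27)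
  obtain ⟨u₀, v₀, huv, h0⟩ := hD.root 0 0
  obtain ⟨s₀, t₀, a, b, hst, hab, h⟩ := cubic_double (c₀ := c₀ 0 0 u₀ v₀) (c₁ := c₁ 0 0 u₀ v₀)
    (c₂ := c₂ 0 0 u₀ v₀) (c₃ := c₃ 0 0 u₀ v₀) (by simpa only [e] using h1 u₀ v₀ huv)
    (by linear_combination h0)
  exact cut_contact (m := 1) hφ hst huv hab (fun s t => by rw [e, h]) (h2 s₀ t₀ hst)

end Pool.Agent.MP_b04567_ag

end
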