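import Pool.Agent.MP_b04567_ag.Mg.Normal

/-! The second two-step family: bidegree (3n+1, 3n+2) and contact 2n+1. -/

namespace Pool.Agent.MP_b04567_ag

theorem BH.hf {a b : ℕ} {f : ℂ → ℂ → ℂ → ℂ → ℂ} (h : BH a b f) :
    HF (a + b) fun p => f (p 0) (p 1) (p 2) (p 3) := by
  induction h with
  | const c => exact HF.const c
  | zero a b => exact HF.zero _
  | add _ _ ih ih' => exact ih.add ih'
  | ms _ ih => exact ((HF.coord 0).mul ih).congr (by ring) fun _ => rfl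
  | mt _ ih => exact ((HF.coord 1).mul ih).congr (by ring) fun _ => rfl
  | mu _ ih => exact ((HF.coord 2).mul ih).congr (by ring) fun _ => rfl
  | mv _ ih => exact ((HF.coord 3).mul ih).congr (by ring) fun _ => rfl

theorem BH.mul_ne {a b a' b' : ℕ} {f g : ℂ → ℂ → ℂ → ℂ → ℂ} (h : BH a b f) (h' : BH a' b' g)
    (hf : ∃ s t u v, f s t u v ≠ 0) (hg : ∃ s t u v, g s t u v ≠ 0) :
    ∃ s t u v, f s t u v * g s t u v ≠ 0 := by
  obtain ⟨L, -, hL⟩ := h.hf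
  obtain ⟨M, -, hM⟩ := h'.hf
  by_contra hne
  push Not at hne
  have h0 : L * M = 0 := MvPolynomial.funext fun p => by rw [map_mul, hL, hM, hne, map_zero]
  rcases mul_eq_zero.1 h0 with rfl | rfl
  · obtain ⟨s, t, u, v, h1⟩ := hf
    exact h1 (by simpa using (hL ![s, t, u, v]).symm)
  · obtain ⟨s, t, u, v, h1⟩ := hg
    exact h1 (by simpa using (hM ![s, t, u, v]).symm)

theorem cut_third {m : ℕ} {κ l φ : ℂ → ℂ → ℂ → ℂ → ℂ} (hκ : BH (m + 1) (m + 1) κ)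
    (hl : BH (3 * m + 4) (3 * m + 4) l) (hφ' : BH (3 * m + 5) (3 * m + 4) φ)
    (hφ : ∀ s t u v, φ s t u v = (s ^ (m + 1) * v ^ (m + 2) + u * κ s t u v) *
      (u ^ (m + 1) * t ^ (m + 2)) ^ 2 + s * l s t u v)
    (h1 : ∃ s t u v, φ s t u v ≠ 0) : Cut (zc φ) := by
  obtain ⟨K, hK, hK'⟩ := hκ.lift
  obtain ⟨M, hM, hM'⟩ := hl.lift
  have hL : HF (m + 1) fun _ => 0 := HF.zero _
  obtain ⟨ε, hε⟩ : ∃ ε : ℂ, ε = (-1) ^ (m + 1) := ⟨_, rfl⟩
  have hε2 : ε ^ 2 = 1 := by rw [hε, ← pow_mul, mul_comm, pow_mul]; simp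
  have hF : ∀ s t u v, mD (m + 1) K (fun _ => 0) (seg s t u v) ^ 2 +
      M (seg s t u v) * mR (m + 1) K (seg s t u v) =
      (s ^ (m + 1) * v ^ (m + 2) + u * κ s t u v) * φ s t u v := fun s t u v => by
    rw [mR_seg, mD_seg, seg, hK', hM', hφ, ← hε]
    linear_combination ((s ^ (m + 1) * v ^ (m + 2) + u * κ s t u v) *
      (u ^ (m + 1) * t ^ (m + 2))) ^ 2 * hε2
  have hG : ∀ s t u v, mP (m + 1) (fun _ => 0) (seg s t u v) * (qd (seg s t u v) ^ (m + 2) +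
      seg s t u v 0 * mD (m + 1) K (fun _ => 0) (seg s t u v)) +
      M (seg s t u v) * seg s t u v 0 ^ 2 = (s * u ^ 2) * φ s t u v :=
    fun s t u v => by
      have h0 : seg s t u v 0 = s * u := rfl
      rw [h0, qd_seg, mP_seg, mD_seg, seg, hK', hM', hφ, ← hε]
      linear_combination (s * u ^ 2 * (s ^ (m + 1) * v ^ (m + 2) + u * κ s t u v) *
        (u ^ (m + 1) * t ^ (m + 2)) ^ 2) * hε2
  have hg : BH (m + 1) (m + 2) fun s t u v => s ^ (m + 1) * v ^ (m + 2) + u * κ s t u v :=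
    (((BH.ps (m + 1)).mul (BH.pv (m + 2))).congr (by ring) (by ring) fun _ _ _ _ => rfl).add hκ.mu
  refine ⟨fun p => mD (m + 1) K (fun _ => 0) p ^ 2 + M p * mR (m + 1) K p,
    fun p => mP (m + 1) (fun _ => 0) p * (qd p ^ (m + 2) + p 0 * mD (m + 1) K (fun _ => 0) p) +
      M p * p 0 ^ 2, 4 * m + 6, 3 * m + 6, by omega, by omega,
    (((hf_mD hK hL).pow 2).congr (by ring) fun _ => rfl).add
      ((hM.mul (hf_mR hK)).congr (by ring) fun _ => rfl),
    (((hf_mP hL).mul (((hf_qd.pow (m + 2)).congr (e := 2 * m + 4) (by ring) fun _ => rfl).add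
      (((HF.coord 0).mul (hf_mD hK hL)).congr (by ring) fun _ => rfl))).congr (by ring)
        fun _ => rfl).add
      ((hM.mul ((HF.coord 0).pow 2)).congr (by ring) fun _ => rfl), ?_, ?_,
    mem_zc_iff (N := 2 * (m + 2)) (D := fun p => -mR (m + 1) K p) (R := fun p => p 0 ^ 2)
      (fun p => ?_) hF hG fun s t u v ha hb => ?_⟩
  · obtain ⟨s, t, u, v, h⟩ := hg.mul_ne hφ' ⟨1, 0, 0, 1, by simp⟩ h1
    exact ⟨seg s t u v, by beta_reduce; rwa [hF]⟩
  · obtain ⟨s, t, u, v, h⟩ := (BH.pu 2).ms.mul_ne hφ' ⟨1, 0, 1, 0, by simp⟩ h1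
    exact ⟨seg s t u v, by beta_reduce; rwa [hG]⟩
  · have h := level1 (m + 1) K (fun _ => 0) p
    rw [mul_comm 2, pow_mul]
    linear_combination (qd p ^ (m + 2) + p 0 * mD (m + 1) K (fun _ => 0) p) * h
  · rw [hφ, ha, zero_mul, zero_add]
    rcases mul_eq_zero.1 hb with h | h
    · rw [h, zero_mul]
    · rw [pow_eq_zero_iff (by omega)] at h
      subst h
      rw [zero_mul, add_zero] at ha
      rcases mul_eq_zero.1 ha with h | h
      · rw [pow_eq_zero_iff (by omega)] at h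
        rw [h, zero_mul]
      · rw [pow_eq_zero_iff (by omega)] at h
        subst h
        have := hl.hom2 0 s t 0 0
        rw [zero_mul, zero_pow (by omega), zero_mul] at this
        rw [this, mul_zero]

theorem Cut.swap {φ : ℂ → ℂ → ℂ → ℂ → ℂ} (h : Cut (zc fun s t u v => φ u v s t)) :
    Cut (zc φ) := by
  obtain ⟨F, G, d, e, hd, he, hF, hG, ⟨p, hp⟩, ⟨p', hp'⟩, h⟩ := h
  have hT : ∀ i : Fin 4, HF 1 fun p : Fin 4 → ℂ => ![p 0, p 2, p 1, p 3] i := fun i => by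
    fin_cases i <;> exact HF.coord _
  have hi : ∀ p : Fin 4 → ℂ, (fun i => ![![p 0, p 2, p 1, p 3] 0, ![p 0, p 2, p 1, p 3] 2,
      ![p 0, p 2, p 1, p 3] 1, ![p 0, p 2, p 1, p 3] 3] i) = p := fun p => by
    funext i
    fin_cases i <;> rfl
  refine ⟨_, _, d, e, hd, he, hF.comp hT, hG.comp hT, ⟨![p 0, p 2, p 1, p 3], ?_⟩,
    ⟨![p' 0, p' 2, p' 1, p' 3], ?_⟩, fun p => ?_⟩
  · rwa [hi]
  · rwa [hi]
  · rw [← h]
    constructor
    · rintro ⟨s, t, u, v, rfl, h0⟩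
      refine ⟨u, v, s, t, ?_, h0⟩
      funext i
      fin_cases i <;> exact mul_comm _ _
    · rintro ⟨s, t, u, v, h0, h1⟩
      refine ⟨u, v, s, t, ?_, h1⟩
      funext i
      fin_cases i
      · exact (congrFun h0 0).trans (mul_comm _ _)
      · exact (congrFun h0 2).trans (mul_comm _ _)
      · exact (congrFun h0 1).trans (mul_comm _ _)
      · exact (congrFun h0 3).trans (mul_comm _ _)

theorem cut_two_thirds {m : ℕ} {φ κ : ℂ → ℂ → ℂ → ℂ → ℂ} (hφ : BH (3 * m + 4) (3 * m + 5) φ)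
    (hκ : BH (m + 1) 0 κ) {s₀ t₀ u₀ v₀ : ℂ} (hst : s₀ ≠ 0 ∨ t₀ ≠ 0) (huv : u₀ ≠ 0 ∨ v₀ ≠ 0)
    (hfib : ∀ s t, φ s t u₀ v₀ = (t₀ * s - s₀ * t) ^ (2 * m + 3) * κ s t 0 0)
    (hne : ∃ s t u v, φ s t u v ≠ 0) : Cut (zc φ) := by
  obtain ⟨x, x', hx⟩ := exists_unimod hst
  obtain ⟨y, y', hy⟩ := exists_unimod huv
  refine Cut.transport hx hy (Cut.swap ?_)
  have hψ := (hφ.subst x s₀ x' t₀ y u₀ y' v₀).swap
  have hκ' := (hκ.subst x s₀ x' t₀ 0 0 0 0).swap
  obtain ⟨ψ₀, ψ', hψ₀, hψ', e⟩ := hψ.div1 (l₁ := 1) (l₂ := 0) (m₁ := 0) (m₂ := 1) (by norm_num)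
  have e' : ∀ s t u v, ψ₀ s t u v =
      u ^ (2 * m + 3) * κ (x * u + s₀ * v) (x' * u + t₀ * v) 0 0 := fun s t u v => by
    have h1 := e 0 1 u v
    have h2 : t₀ * (x * u + s₀ * v) - s₀ * (x' * u + t₀ * v) = u := by linear_combination u * hx
    simp only [mul_zero, mul_one, zero_add, hfib, h2, one_pow, one_mul, zero_mul] at h1
    rw [hψ₀.indep1 s t 0 1, ← h1]
  refine cut_third (m := m)
    (κ := fun s t u v => t ^ (m + 1) * κ (x * u + s₀ * v) (x' * u + t₀ * v) 0 0)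
    (l := fun s t u v => ψ' s t u v - s ^ m * v ^ (m + 2) * (u ^ (m + 1) * t ^ (m + 2)) ^ 2)
    (((BH.pt (m + 1)).mul hκ').congr (by ring) (by ring) fun _ _ _ _ => by simp)
    (hψ'.sub ((((BH.ps m).mul (BH.pv (m + 2))).mul
      (((BH.pu (m + 1)).mul (BH.pt (m + 2))).pow 2)).congr (by ring) (by ring)
        fun _ _ _ _ => rfl)) hψ (fun s t u v => ?_) ?_
  · have h1 := e s t u v
    rw [e'] at h1
    linear_combination h1
  · obtain ⟨s, t, u, v, h⟩ := hne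
    refine ⟨v₀ * u - u₀ * v, y * v - y' * u, t₀ * s - s₀ * t, x * t - x' * s, ?_⟩
    have h1 : y * (v₀ * u - u₀ * v) + u₀ * (y * v - y' * u) = u := by linear_combination u * hy
    have h2 : y' * (v₀ * u - u₀ * v) + v₀ * (y * v - y' * u) = v := by linear_combination v * hy
    have h3 : x * (t₀ * s - s₀ * t) + s₀ * (x * t - x' * s) = s := by linear_combination s * hx
    have h4 : x' * (t₀ * s - s₀ * t) + t₀ * (x * t - x' * s) = t := by linear_combination t * hx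
    simpa only [h1, h2, h3, h4] using h

end Pool.Agent.MP_b04567_ag
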